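import Pool.Agent.R696.RB.Oct
import Pool.Agent.R696.RB.Main
set_option autoImplicit false

/-! The Albert algebra has degree three. -/

namespace Pool.Agent.R696.RB
open Oct

variable {F : Type*} [Field F]

/-- scalars -/
def sc (d : F) : Oct F := ⟨d, 0, 0, 0, 0, 0, 0, d⟩

/-- the norm form -/
def bl (x y : Oct F) : F := x.a * y.b + y.a * x.b - (x.u1 * y.v1 + x.u2 * y.v2 + x.u3 * y.v3)
  - (y.u1 * x.v1 + y.u2 * x.v2 + y.u3 * x.v3)

/-- coordinates on the Albert algebra -/
def mk3 (d1 d2 d3 : F) (p q r : Oct F) : Albert F :=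
  ⟨!![sc d1, r, conj q; conj r, sc d2, p; q, conj p, sc d3], by
    intro i j
    fin_cases i <;> fin_cases j <;> simp [conj_conj, sc, conj_def]⟩

theorem mk3_mat (d1 d2 d3 : F) (p q r : Oct F) :
    (mk3 d1 d2 d3 p q r).mat = !![sc d1, r, conj q; conj r, sc d2, p; q, conj p, sc d3] := rfl

theorem mk3_surj [CharZero F] (M : Albert F) :
    ∃ (d1 d2 d3 : F) (p q r : Oct F), M = mk3 d1 d2 d3 p q r := by
  have hM : ∀ i j, M.mat j i = conj (M.mat i j) := M.2
  have hd : ∀ i, M.mat i i = sc (M.mat i i).a := by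
    intro i
    have h := hM i i
    rw [conj_def] at h
    have hu : ∀ x : F, x = -x → x = 0 := fun x hx => by
      have : (2 : F) * x = 0 := by linear_combination hx
      simpa using this
    have g1 := congrArg Oct.b h
    have g2 := hu _ (congrArg Oct.u1 h)
    have g3 := hu _ (congrArg Oct.u2 h)
    have g4 := hu _ (congrArg Oct.u3 h)
    have g5 := hu _ (congrArg Oct.v1 h)
    have g6 := hu _ (congrArg Oct.v2 h)
    have g7 := hu _ (congrArg Oct.v3 h)
    simp only at g1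
    ext <;> simp only [sc] <;> assumption
  refine ⟨(M.mat 0 0).a, (M.mat 1 1).a, (M.mat 2 2).a, M.mat 1 2, M.mat 2 0, M.mat 0 1, ?_⟩
  apply Albert.ext
  rw [mk3_mat]
  refine Matrix.ext fun i j => ?_
  fin_cases i <;> fin_cases j
  · exact hd 0
  · rfl
  · exact hM 2 0
  · exact hM 0 1
  · exact hd 1
  · rfl
  · rfl
  · exact hM 1 2
  · exact hd 2

theorem mk3_add (d1 d2 d3 e1 e2 e3 : F) (p q r p' q' r' : Oct F) :
    mk3 d1 d2 d3 p q r + mk3 e1 e2 e3 p' q' r'
      = mk3 (d1 + e1) (d2 + e2) (d3 + e3) (p + p') (q + q') (r + r') := by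
  apply Albert.ext
  show (mk3 d1 d2 d3 p q r).mat + (mk3 e1 e2 e3 p' q' r').mat = _
  rw [mk3_mat, mk3_mat, mk3_mat]
  refine Matrix.ext fun i j => ?_
  fin_cases i <;> fin_cases j <;> simp [sc, conj_def, Oct.add_def, add_comm]

theorem mk3_smul (c d1 d2 d3 : F) (p q r : Oct F) :
    c • mk3 d1 d2 d3 p q r = mk3 (c * d1) (c * d2) (c * d3) (c • p) (c • q) (c • r) := by
  apply Albert.ext
  show c • (mk3 d1 d2 d3 p q r).mat = _
  rw [mk3_mat, mk3_mat]
  refine Matrix.ext fun i j => ?_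
  fin_cases i <;> fin_cases j <;> simp [sc, conj_def, Oct.smul_def]

theorem mk3_mul [CharZero F] (d1 d2 d3 e1 e2 e3 : F) (p q r p' q' r' : Oct F) :
    mk3 d1 d2 d3 p q r * mk3 e1 e2 e3 p' q' r' =
      mk3 (d1 * e1 + (bl r r' + bl q q') / 2) (d2 * e2 + (bl r r' + bl p p') / 2)
        (d3 * e3 + (bl p p' + bl q q') / 2)
        ((1 / 2 : F) • ((d2 + d3) • p' + (e2 + e3) • p + (conj r * conj q' + conj r' * conj q)))
        ((1 / 2 : F) • ((d3 + d1) • q' + (e3 + e1) • q + (conj p * conj r' + conj p' * conj r)))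
        ((1 / 2 : F) • ((d1 + d2) • r' + (e1 + e2) • r + (conj q * conj p' + conj q' * conj p))) := by
  apply Albert.ext
  rw [jmul_mat, mk3_mat, mk3_mat, mk3_mat]
  refine Matrix.ext fun i j => ?_
  simp only [Matrix.smul_apply, Matrix.add_apply, Matrix.mul_apply, Fin.sum_univ_three]
  fin_cases i <;> fin_cases j <;>
  · simp only [Matrix.of_apply, Matrix.cons_val', Matrix.cons_val_zero, Matrix.cons_val_one, Matrix.cons_val,
      Matrix.cons_val_fin_one, Fin.zero_eta, Fin.mk_one, Fin.reduceFinMk, Fin.isValue]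
    simp only [sc, bl, conj_def, Oct.mul_def, Oct.add_def, Oct.smul_def, Oct.mk.injEq]
    refine ⟨?_, ?_, ?_, ?_, ?_, ?_, ?_, ?_⟩ <;> ring

end Pool.Agent.R696.RB
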