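import Pool.Agent.R696.RB.Albert
set_option autoImplicit false

/-! The generic equation of degree three of the Albert algebra. -/

namespace Pool.Agent.R696.RB
open Oct

variable {F : Type*} [Field F]

theorem mk3_sub (d1 d2 d3 e1 e2 e3 : F) (p q r p' q' r' : Oct F) :
    mk3 d1 d2 d3 p q r - mk3 e1 e2 e3 p' q' r'
      = mk3 (d1 - e1) (d2 - e2) (d3 - e3) (p + (-1 : F) • p') (q + (-1 : F) • q') (r + (-1 : F) • r') := by
  have h : mk3 d1 d2 d3 p q r - mk3 e1 e2 e3 p' q' r'
      = mk3 d1 d2 d3 p q r + (-1 : F) • mk3 e1 e2 e3 p' q' r' := by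
    rw [neg_one_smul, sub_eq_add_neg]
  rw [h, mk3_smul, mk3_add]
  congr 1 <;> ring

/-- the trace -/
def tA : Albert F →ₗ[F] F where
  toFun M := (M.mat 0 0).a + (M.mat 1 1).a + (M.mat 2 2).a
  map_add' M N := by
    show (M.mat 0 0 + N.mat 0 0).a + (M.mat 1 1 + N.mat 1 1).a + (M.mat 2 2 + N.mat 2 2).a = _
    simp only [Oct.add_def]; ring
  map_smul' c M := by
    show (c • M.mat 0 0).a + (c • M.mat 1 1).a + (c • M.mat 2 2).a = _
    simp only [Oct.smul_def, RingHom.id_apply, smul_eq_mul]; ring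

theorem tA_mk3 (d1 d2 d3 : F) (p q r : Oct F) : tA (mk3 d1 d2 d3 p q r) = d1 + d2 + d3 := rfl

/-- the unit -/
def eA : Albert F := mk3 1 1 1 0 0 0

theorem eA_mul [CharZero F] (x : Albert F) : eA * x = x := by
  obtain ⟨d1, d2, d3, p, q, r, rfl⟩ := mk3_surj x
  rw [eA, mk3_mul]
  have h2 : (2 : F) ≠ 0 := two_ne_zero
  congr 1
  · simp [bl, zero_def]
  · simp [bl, zero_def]
  · simp [bl, zero_def]
  all_goals
    simp only [conj_def, Oct.mul_def, Oct.add_def, Oct.smul_def, Oct.zero_def]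
    ext <;> simp only <;> field_simp <;> ring

theorem tA_eA : tA (eA : Albert F) = 3 := by
  rw [eA, tA_mk3]; norm_num

/-- the quadratic norm -/
def no (x : Oct F) : F := x.a * x.b - (x.u1 * x.v1 + x.u2 * x.v2 + x.u3 * x.v3)

/-- the trilinear trace -/
def tau (p q r : Oct F) : F := bl p (conj r * conj q)

theorem bl_self (x : Oct F) : bl x x = 2 * no x := by simp only [bl, no]; ring

theorem bl_add (x y z : Oct F) : bl x (y + z) = bl x y + bl x z := by
  simp only [bl, Oct.add_def]; ring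

theorem bl_smul (c : F) (x y : Oct F) : bl x (c • y) = c * bl x y := by
  simp only [bl, Oct.smul_def]; ring

theorem bl_q (p q r : Oct F) : bl q (conj p * conj r) = tau p q r := by
  simp only [tau, bl, conj_def, Oct.mul_def]; ring

theorem bl_r (p q r : Oct F) : bl r (conj q * conj p) = tau p q r := by
  simp only [tau, bl, conj_def, Oct.mul_def]; ring

theorem left_no (x y : Oct F) : conj x * (x * y) = no x • y := by
  simp only [no, conj_def, Oct.mul_def, Oct.smul_def, Oct.mk.injEq]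
  refine ⟨?_, ?_, ?_, ?_, ?_, ?_, ?_, ?_⟩ <;> ring

theorem right_no (x y : Oct F) : (x * y) * conj y = no y • x := by
  simp only [no, conj_def, Oct.mul_def, Oct.smul_def, Oct.mk.injEq]
  refine ⟨?_, ?_, ?_, ?_, ?_, ?_, ?_, ?_⟩ <;> ring

theorem mk3_congr' {d1 d2 d3 e1 e2 e3 : F} {p q r p' q' r' : Oct F} (h1 : d1 = e1) (h2 : d2 = e2)
    (h3 : d3 = e3) (h4 : p = p') (h5 : q = q') (h6 : r = r') :
    mk3 d1 d2 d3 p q r = mk3 e1 e2 e3 p' q' r' := by
  subst h1 h2 h3 h4 h5 h6; rfl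

theorem mk3_sq [CharZero F] (d1 d2 d3 : F) (p q r : Oct F) :
    mk3 d1 d2 d3 p q r * mk3 d1 d2 d3 p q r = mk3 (d1 ^ 2 + no r + no q) (d2 ^ 2 + no r + no p)
      (d3 ^ 2 + no p + no q) ((d2 + d3) • p + conj r * conj q) ((d3 + d1) • q + conj p * conj r)
      ((d1 + d2) • r + conj q * conj p) := by
  rw [mk3_mul]
  refine mk3_congr' ?_ ?_ ?_ ?_ ?_ ?_
  · rw [bl_self, bl_self]; ring
  · rw [bl_self, bl_self]; ring
  · rw [bl_self, bl_self]; ring
  · module
  · module
  · module

theorem side (x y z : Oct F) (c d : F) :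
    conj x * conj (c • y + conj z * conj x) + conj (d • x + conj y * conj z) * conj y
      = (c + d) • (conj x * conj y) + (no x + no y) • z := by
  rw [conj_add, conj_add, conj_smul, conj_smul, Oct.conj_mul, Oct.conj_mul, conj_conj, conj_conj,
    conj_conj, mul_add, add_mul, mul_smul_comm, smul_mul_assoc, left_no, right_no]
  module

theorem mk3_cube [CharZero F] (d1 d2 d3 : F) (p q r : Oct F) :
    mk3 d1 d2 d3 p q r * mk3 (d1 ^ 2 + no r + no q) (d2 ^ 2 + no r + no p)
      (d3 ^ 2 + no p + no q) ((d2 + d3) • p + conj r * conj q) ((d3 + d1) • q + conj p * conj r)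
      ((d1 + d2) • r + conj q * conj p) =
      mk3 (d1 * (d1 ^ 2 + no r + no q) + (d1 + d2) * no r + (d3 + d1) * no q + tau p q r)
       (d2 * (d2 ^ 2 + no r + no p) + (d1 + d2) * no r + (d2 + d3) * no p + tau p q r)
       (d3 * (d3 ^ 2 + no p + no q) + (d2 + d3) * no p + (d3 + d1) * no q + tau p q r)
       ((((d2 + d3) ^ 2 + (d2 ^ 2 + no r + no p) + (d3 ^ 2 + no p + no q) + no r + no q) / 2) • p
        + (d1 + d2 + d3) • (conj r * conj q))
       ((((d3 + d1) ^ 2 + (d3 ^ 2 + no p + no q) + (d1 ^ 2 + no r + no q) + no p + no r) / 2) • q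
        + (d1 + d2 + d3) • (conj p * conj r))
       ((((d1 + d2) ^ 2 + (d1 ^ 2 + no r + no q) + (d2 ^ 2 + no r + no p) + no q + no p) / 2) • r
        + (d1 + d2 + d3) • (conj q * conj p)) := by
  rw [mk3_mul]
  refine mk3_congr' ?_ ?_ ?_ ?_ ?_ ?_
  · rw [bl_add, bl_smul, bl_self, bl_r p q r, bl_add, bl_smul, bl_self, bl_q]; ring
  · rw [bl_add, bl_smul, bl_self, bl_r p q r, bl_add, bl_smul, bl_self, ← tau]; ring
  · rw [bl_add, bl_smul, bl_self, ← tau, bl_add, bl_smul, bl_self, bl_q]; ring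
  · rw [side r q p]; module
  · rw [side p r q]; module
  · rw [side q p r]; module

/-- the generic equation of degree three -/
theorem alb_cub [CharZero F] (z : Albert F) : z * (z * z) =
    tA z • (z * z) - ((tA z ^ 2 - tA (z * z)) / 2) • z
      + ((tA (z * (z * z)) - tA z * tA (z * z) + ((tA z ^ 2 - tA (z * z)) / 2) * tA z) / 3) • eA := by
  obtain ⟨d1, d2, d3, p, q, r, rfl⟩ := mk3_surj z
  rw [mk3_sq, mk3_cube, tA_mk3, tA_mk3, tA_mk3, mk3_smul, mk3_smul, mk3_sub, eA, mk3_smul, mk3_add]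
  refine mk3_congr' ?_ ?_ ?_ ?_ ?_ ?_
  · ring
  · ring
  · ring
  · module
  · module
  · module

theorem tA_assoc [CharZero F] (a x : Albert F) : tA (a * (a * x)) = tA (x * (a * a)) := by
  obtain ⟨d1, d2, d3, p, q, r, rfl⟩ := mk3_surj a
  obtain ⟨e1, e2, e3, p', q', r', rfl⟩ := mk3_surj x
  simp only [mk3_mul, mk3_add, mk3_smul, mk3_sub, tA_mk3]
  simp only [bl, conj_def, Oct.mul_def, Oct.add_def, Oct.smul_def]
  ring

/-- its linearisation -/
theorem alb_cubic [CharZero F] (a x : Albert F) : (a * a) * x + (2 : F) • (a * (a * x)) =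
    tA x • (a * a) + (2 * tA a) • (a * x) - (tA a * tA x - tA (a * x)) • a
      - ((tA a ^ 2 - tA (a * a)) / 2) • x
      + (tA ((a * a) * x) - tA a * tA (a * x) + ((tA a ^ 2 - tA (a * a)) / 2) * tA x) • eA := by
  have h1 := alb_cub (a + x)
  have h2 := alb_cub (a - x)
  have h3 := alb_cub x
  rw [jmul_comm (a * a) x]
  have ht := tA_assoc a x
  simp only [mul_add, add_mul, mul_sub, sub_mul, map_add, map_sub, jmul_comm x a, ht] at h1 h2 h3
  linear_combination (norm := module) (1 / 2 : F) • h1 - (1 / 2 : F) • h2 - h3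

/-- the Albert algebra is a unital commutative algebra of degree three -/
theorem alb_deg3 [CharZero F] : Deg3 F (eA : Albert F) tA where
  comm := jmul_comm
  one := eA_mul
  tone := tA_eA
  cubic := alb_cubic

end Pool.Agent.R696.RB
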