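import Mathlib
set_option autoImplicit false

/-! Split octonions (Zorn vector matrices) and the split Albert algebra of `3 × 3` Hermitian octonion matrices. -/

namespace Pool.Agent.R696.RB

/-- The split octonion (Cayley) algebra over `K`: Zorn vector matrices `(a, u; v, b)` with scalars `a, b` and vectors
`u = (u1, u2, u3)`, `v = (v1, v2, v3)`. -/
@[ext] structure Oct (K : Type*) where
  a : K
  u1 : K
  u2 : K
  u3 : K
  v1 : K
  v2 : K
  v3 : K
  b : K

namespace Oct

variable {K : Type*} [CommRing K]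

instance : Zero (Oct K) := ⟨⟨0, 0, 0, 0, 0, 0, 0, 0⟩⟩
instance : Add (Oct K) := ⟨fun x y => ⟨x.a + y.a, x.u1 + y.u1, x.u2 + y.u2, x.u3 + y.u3,
  x.v1 + y.v1, x.v2 + y.v2, x.v3 + y.v3, x.b + y.b⟩⟩
instance : Neg (Oct K) := ⟨fun x => ⟨-x.a, -x.u1, -x.u2, -x.u3, -x.v1, -x.v2, -x.v3, -x.b⟩⟩
/-- scalar product of two vectors -/
def dot (x1 x2 x3 y1 y2 y3 : K) : K := x1 * y1 + x2 * y2 + x3 * y3
/-- upper left entry `a a' + u·v'` of the product -/
def mulA (x y : Oct K) : K := x.a * y.a + dot x.u1 x.u2 x.u3 y.v1 y.v2 y.v3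
/-- lower right entry `b b' + v·u'` of the product -/
def mulB (x y : Oct K) : K := x.b * y.b + dot x.v1 x.v2 x.v3 y.u1 y.u2 y.u3
/-- first coordinate of the upper right entry `a u' + b' u - v × v'` of the product -/
def mulU1 (x y : Oct K) : K := x.a * y.u1 + y.b * x.u1 - (x.v2 * y.v3 - x.v3 * y.v2)
/-- second coordinate of the upper right entry -/
def mulU2 (x y : Oct K) : K := x.a * y.u2 + y.b * x.u2 - (x.v3 * y.v1 - x.v1 * y.v3)
/-- third coordinate of the upper right entry -/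
def mulU3 (x y : Oct K) : K := x.a * y.u3 + y.b * x.u3 - (x.v1 * y.v2 - x.v2 * y.v1)
/-- first coordinate of the lower left entry `a' v + b v' + u × u'` of the product -/
def mulV1 (x y : Oct K) : K := y.a * x.v1 + x.b * y.v1 + (x.u2 * y.u3 - x.u3 * y.u2)
/-- second coordinate of the lower left entry -/
def mulV2 (x y : Oct K) : K := y.a * x.v2 + x.b * y.v2 + (x.u3 * y.u1 - x.u1 * y.u3)
/-- third coordinate of the lower left entry -/
def mulV3 (x y : Oct K) : K := y.a * x.v3 + x.b * y.v3 + (x.u1 * y.u2 - x.u2 * y.u1)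
/-- `(a, u; v, b) (a', u'; v', b') = (a a' + u·v', a u' + b' u - v × v'; a' v + b v' + u × u', b b' + v·u')` -/
instance : Mul (Oct K) := ⟨fun x y => ⟨mulA x y, mulU1 x y, mulU2 x y, mulU3 x y, mulV1 x y, mulV2 x y,
  mulV3 x y, mulB x y⟩⟩
instance : SMul K (Oct K) := ⟨fun s x => ⟨s * x.a, s * x.u1, s * x.u2, s * x.u3, s * x.v1, s * x.v2,
  s * x.v3, s * x.b⟩⟩

theorem zero_def : (0 : Oct K) = ⟨0, 0, 0, 0, 0, 0, 0, 0⟩ := rfl
theorem add_def (x y : Oct K) : x + y = ⟨x.a + y.a, x.u1 + y.u1, x.u2 + y.u2, x.u3 + y.u3,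
  x.v1 + y.v1, x.v2 + y.v2, x.v3 + y.v3, x.b + y.b⟩ := rfl
theorem neg_def (x : Oct K) :
    -x = ⟨-x.a, -x.u1, -x.u2, -x.u3, -x.v1, -x.v2, -x.v3, -x.b⟩ := rfl
theorem mul_def (x y : Oct K) : x * y =
  ⟨x.a * y.a + (x.u1 * y.v1 + x.u2 * y.v2 + x.u3 * y.v3),
   x.a * y.u1 + y.b * x.u1 - (x.v2 * y.v3 - x.v3 * y.v2),
   x.a * y.u2 + y.b * x.u2 - (x.v3 * y.v1 - x.v1 * y.v3),
   x.a * y.u3 + y.b * x.u3 - (x.v1 * y.v2 - x.v2 * y.v1),
   y.a * x.v1 + x.b * y.v1 + (x.u2 * y.u3 - x.u3 * y.u2),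
   y.a * x.v2 + x.b * y.v2 + (x.u3 * y.u1 - x.u1 * y.u3),
   y.a * x.v3 + x.b * y.v3 + (x.u1 * y.u2 - x.u2 * y.u1),
   x.b * y.b + (x.v1 * y.u1 + x.v2 * y.u2 + x.v3 * y.u3)⟩ := rfl
theorem smul_def (s : K) (x : Oct K) : s • x = ⟨s * x.a, s * x.u1, s * x.u2, s * x.u3, s * x.v1,
  s * x.v2, s * x.v3, s * x.b⟩ := rfl

instance : NonUnitalNonAssocRing (Oct K) where
  add_assoc x y z := by simp only [add_def, mk.injEq]; refine ⟨?_, ?_, ?_, ?_, ?_, ?_, ?_, ?_⟩ <;> ring
  zero_add x := by ext <;> simp [add_def, zero_def]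
  add_zero x := by ext <;> simp [add_def, zero_def]
  nsmul := nsmulRec
  zsmul := zsmulRec
  neg_add_cancel x := by ext <;> simp [add_def, zero_def, neg_def]
  add_comm x y := by simp only [add_def, mk.injEq]; refine ⟨?_, ?_, ?_, ?_, ?_, ?_, ?_, ?_⟩ <;> ring
  left_distrib x y z := by
    simp only [add_def, mul_def, mk.injEq]; refine ⟨?_, ?_, ?_, ?_, ?_, ?_, ?_, ?_⟩ <;> ring
  right_distrib x y z := by
    simp only [add_def, mul_def, mk.injEq]; refine ⟨?_, ?_, ?_, ?_, ?_, ?_, ?_, ?_⟩ <;> ring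
  zero_mul x := by ext <;> simp [mul_def, zero_def]
  mul_zero x := by ext <;> simp [mul_def, zero_def]

instance : Module K (Oct K) where
  one_smul x := by rw [smul_def]; ext <;> simp
  mul_smul r s x := by simp only [smul_def, mul_assoc]
  smul_zero r := by simp only [smul_def, zero_def, mul_zero]
  smul_add r x y := by simp only [smul_def, add_def, mul_add]
  add_smul r s x := by simp only [smul_def, add_def, add_mul]
  zero_smul x := by simp only [smul_def, zero_def, zero_mul]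

instance : IsScalarTower K (Oct K) (Oct K) := ⟨by
  intro r x y
  simp only [smul_eq_mul, smul_def, mul_def, mk.injEq]
  refine ⟨?_, ?_, ?_, ?_, ?_, ?_, ?_, ?_⟩ <;> ring⟩

instance : SMulCommClass K (Oct K) (Oct K) := ⟨by
  intro r x y
  simp only [smul_eq_mul, smul_def, mul_def, mk.injEq]
  refine ⟨?_, ?_, ?_, ?_, ?_, ?_, ?_, ?_⟩ <;> ring⟩

/-- the standard involution -/
def conj (x : Oct K) : Oct K := ⟨x.b, -x.u1, -x.u2, -x.u3, -x.v1, -x.v2, -x.v3, x.a⟩

theorem conj_def (x : Oct K) : conj x = ⟨x.b, -x.u1, -x.u2, -x.u3, -x.v1, -x.v2, -x.v3, x.a⟩ := rfl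

theorem conj_conj (x : Oct K) : conj (conj x) = x := by
  simp only [conj_def, neg_neg]

theorem conj_add (x y : Oct K) : conj (x + y) = conj x + conj y := by
  simp only [conj_def, add_def, neg_add]

theorem conj_zero : conj (0 : Oct K) = 0 := by
  simp [conj_def, zero_def]

theorem conj_smul (s : K) (x : Oct K) : conj (s • x) = s • conj x := by
  simp only [conj_def, smul_def, mul_neg]

theorem conj_mul (x y : Oct K) : conj (x * y) = conj y * conj x := by
  simp only [conj_def, mul_def, mk.injEq]; refine ⟨?_, ?_, ?_, ?_, ?_, ?_, ?_, ?_⟩ <;> ring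

end Oct

open Oct

section albert
variable (F : Type*) [Field F]

/-- The space of `3 × 3` matrices over the split octonions that are Hermitian, `M j i = conj (M i j)`. -/
def Herm : Submodule F (Matrix (Fin 3) (Fin 3) (Oct F)) where
  carrier := {M | ∀ i j, M j i = conj (M i j)}
  zero_mem' := fun i j => by simp [conj_zero]
  add_mem' := fun {M N} hM hN i j => by
    rw [Matrix.add_apply, Matrix.add_apply, hM i j, hN i j, conj_add]
  smul_mem' := fun c M hM i j => by
    rw [Matrix.smul_apply, Matrix.smul_apply, hM i j, conj_smul]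

/-- The Albert algebra `H_3(O)`: Hermitian `3 × 3` matrices over the split octonions. -/
def Albert : Type _ := Herm F

variable {F}

instance : AddCommGroup (Albert F) := inferInstanceAs (AddCommGroup (Herm F))
instance : Module F (Albert F) := inferInstanceAs (Module F (Herm F))

/-- the matrix -/
def Albert.mat (x : Albert F) : Matrix (Fin 3) (Fin 3) (Oct F) := x.1

theorem Albert.ext {x y : Albert F} (h : x.mat = y.mat) : x = y := Subtype.ext h

theorem jmul_mem (x y : Matrix (Fin 3) (Fin 3) (Oct F)) (hx : x ∈ Herm F) (hy : y ∈ Herm F) :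
    (1 / 2 : F) • (x * y + y * x) ∈ Herm F := by
  apply Submodule.smul_mem
  intro i j
  have hx' : ∀ i j, x j i = conj (x i j) := hx
  have hy' : ∀ i j, y j i = conj (y i j) := hy
  simp only [Matrix.add_apply, Matrix.mul_apply, Fin.sum_univ_three, conj_add, Oct.conj_mul, ← hx', ← hy']
  abel

/-- the Jordan product `x ∘ y = (x y + y x) / 2` -/
instance : Mul (Albert F) := ⟨fun x y => ⟨(1 / 2 : F) • (x.mat * y.mat + y.mat * x.mat),
  jmul_mem x.mat y.mat x.2 y.2⟩⟩

theorem jmul_mat (x y : Albert F) : (x * y).mat = (1 / 2 : F) • (x.mat * y.mat + y.mat * x.mat) := rfl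

instance : NonUnitalNonAssocRing (Albert F) where
  left_distrib x y z := by
    apply Albert.ext
    show (1 / 2 : F) • (x.mat * (y.mat + z.mat) + (y.mat + z.mat) * x.mat)
      = (1 / 2 : F) • (x.mat * y.mat + y.mat * x.mat) + (1 / 2 : F) • (x.mat * z.mat + z.mat * x.mat)
    rw [mul_add, add_mul, ← smul_add]; congr 1; abel
  right_distrib x y z := by
    apply Albert.ext
    show (1 / 2 : F) • ((x.mat + y.mat) * z.mat + z.mat * (x.mat + y.mat))
      = (1 / 2 : F) • (x.mat * z.mat + z.mat * x.mat) + (1 / 2 : F) • (y.mat * z.mat + z.mat * y.mat)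
    rw [mul_add, add_mul, ← smul_add]; congr 1; abel
  zero_mul x := by
    apply Albert.ext
    show (1 / 2 : F) • ((0 : Matrix (Fin 3) (Fin 3) (Oct F)) * x.mat + x.mat * 0) = 0
    rw [zero_mul, mul_zero, add_zero, smul_zero]
  mul_zero x := by
    apply Albert.ext
    show (1 / 2 : F) • (x.mat * (0 : Matrix (Fin 3) (Fin 3) (Oct F)) + 0 * x.mat) = 0
    rw [zero_mul, mul_zero, add_zero, smul_zero]

theorem jmul_comm (x y : Albert F) : x * y = y * x := by
  apply Albert.ext
  rw [jmul_mat, jmul_mat, add_comm]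

instance : IsScalarTower F (Albert F) (Albert F) := ⟨by
  intro r x y
  apply Albert.ext
  show (1 / 2 : F) • ((r • x.mat) * y.mat + y.mat * (r • x.mat))
    = r • ((1 / 2 : F) • (x.mat * y.mat + y.mat * x.mat))
  rw [smul_mul_assoc, mul_smul_comm, ← smul_add, smul_comm]⟩

instance : SMulCommClass F (Albert F) (Albert F) := ⟨by
  intro r x y
  apply Albert.ext
  show r • ((1 / 2 : F) • (x.mat * y.mat + y.mat * x.mat))
    = (1 / 2 : F) • (x.mat * (r • y.mat) + (r • y.mat) * x.mat)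
  rw [smul_mul_assoc, mul_smul_comm, ← smul_add, smul_comm]⟩

end albert

end Pool.Agent.R696.RB
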